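import Pool.Agent.Lib.MP_6bc78b_nt.SW.Iface

/-! DER: bounds of `LSeries (Λ χ log^k)` to the right of 1. -/

set_option autoImplicit false

open Complex Finset DirichletCharacter

namespace Pool.Agent.Lib.MP_6bc78b_nt.SW.H64

theorem LL_ge_one {q : ℕ} (hq : 1 ≤ q) (t : ℝ) : 1 ≤ LL q t := by
  have hq' : (1 : ℝ) ≤ q := by exact_mod_cast hq
  have h3 : (3 : ℝ) ≤ q * (|t| + 3) := by nlinarith [abs_nonneg t]
  rw [LL, Real.le_log_iff_exp_le (by linarith)]
  have := Real.exp_one_lt_d9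
  linarith

theorem low (hC : LbcStatement) (hR : LbrStatement) : ∀ ε : ℝ, 0 < ε → ∃ c : ℝ, 0 < c ∧
    ∀ q : ℕ, 1 ≤ q → ∀ χ : DirichletCharacter ℂ q, χ ≠ 1 → ∀ σ t : ℝ, 1 < σ → σ ≤ 2 →
      c ≤ (q : ℝ) ^ ε * LL q t ^ 12 * ‖LSeries (fun n : ℕ => χ (n : ZMod q)) (σ + t * I)‖ := by
  intro ε hε
  obtain ⟨c1, hc1, h1⟩ := hC
  obtain ⟨c2, hc2, h2⟩ := hR ε hε
  refine ⟨min c1 c2, lt_min hc1 hc2, ?_⟩
  intro q hq χ hχ σ t hs1 hs2
  have hq' : (1 : ℝ) ≤ q := by exact_mod_cast hq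
  have hQ : (1 : ℝ) ≤ (q : ℝ) ^ ε := Real.one_le_rpow hq' hε.le
  have hl := LL_ge_one hq t
  by_cases hx : χ ^ 2 = 1
  · exact (min_le_right _ _).trans (h2 q hq χ hχ hx σ t hs1 hs2)
  · refine (min_le_left _ _).trans ((h1 q hq χ hχ hx σ t hs1 hs2).trans ?_)
    refine mul_le_mul_of_nonneg_right ?_ (norm_nonneg _)
    have h7 : LL q t ^ 7 ≤ LL q t ^ 12 := pow_le_pow_right₀ hl (by norm_num)
    calc LL q t ^ 7 ≤ 1 * LL q t ^ 12 := by rw [one_mul]; exact h7
      _ ≤ (q : ℝ) ^ ε * LL q t ^ 12 := by gcongr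

theorem chiLog_zero {q : ℕ} (χ : DirichletCharacter ℂ q) :
    chiLog χ 0 = fun n : ℕ => χ (n : ZMod q) := by
  funext n
  simp [chiLog]

theorem der (hU : UbnStatement) (hL : LeibStatement) (hC : LbcStatement) (hR : LbrStatement) :
    DerStatement := by
  have hlow := low hC hR
  choose CU hCU hU' using hU
  intro k
  induction k using Nat.strong_induction_on with
  | _ k ih =>
    intro ε hε
    obtain ⟨c, hc, hlo⟩ := hlow (ε / 2) (half_pos hε)
    have ih' : ∀ j : ℕ, ∃ (C : ℝ) (E : ℕ), 0 < C ∧ (j < k → ∀ q : ℕ, 1 ≤ q →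
        ∀ χ : DirichletCharacter ℂ q, χ ≠ 1 → ∀ σ t : ℝ, 1 < σ → σ ≤ 2 →
        ‖LSeries (vmLog χ j) (σ + t * I)‖ ≤ C * (q : ℝ) ^ (ε / 2) * LL q t ^ E) := by
      intro j
      by_cases h : j < k
      · obtain ⟨C, E, h1, h2⟩ := ih j h (ε / 2) (half_pos hε)
        exact ⟨C, E, h1, fun _ => h2⟩
      · exact ⟨1, 0, one_pos, fun h' => absurd h' h⟩
    choose C' E' hC' hI using ih'
    set S : ℕ := ∑ j ∈ range k, (E' j + (k - j + 1)) with hS
    set D : ℝ := CU (k + 1) + ∑ j ∈ range k, (k.choose j : ℝ) * (C' j * CU (k - j)) with hD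
    have hD0 : 0 < D := by
      have : 0 ≤ ∑ j ∈ range k, (k.choose j : ℝ) * (C' j * CU (k - j)) :=
        Finset.sum_nonneg fun j _ => by
          have := hC' j
          have := hCU (k - j)
          positivity
      have := hCU (k + 1)
      linarith
    refine ⟨D / c, (S + (k + 2)) + 12, div_pos hD0 hc, ?_⟩
    intro q hq χ hχ σ t h1 h2
    have hq' : (1 : ℝ) ≤ q := by exact_mod_cast hq
    have hl := LL_ge_one hq t
    have hl0 : (0 : ℝ) < LL q t := by linarith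
    have hQ : (1 : ℝ) ≤ (q : ℝ) ^ (ε / 2) := Real.one_le_rpow hq' (half_pos hε).le
    have hQ0 : (0 : ℝ) < (q : ℝ) ^ (ε / 2) := by linarith
    set s : ℂ := (σ : ℂ) + t * I with hs
    have hre : 1 < s.re := by simp [hs, h1]
    have key : ‖LSeries (vmLog χ k) s‖ * ‖LSeries (fun n : ℕ => χ (n : ZMod q)) s‖ ≤
        D * (q : ℝ) ^ (ε / 2) * LL q t ^ (S + (k + 2)) := by
      have hleib := (hL q hq χ k s hre).2
      rw [Finset.sum_range_succ, Nat.choose_self, Nat.sub_self, chiLog_zero, Nat.cast_one,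
        one_mul] at hleib
      have e1 : LSeries (vmLog χ k) s * LSeries (fun n : ℕ => χ (n : ZMod q)) s =
          LSeries (chiLog χ (k + 1)) s - ∑ j ∈ range k,
            (k.choose j : ℂ) * LSeries (vmLog χ j) s * LSeries (chiLog χ (k - j)) s := by
        rw [hleib]; ring
      rw [← norm_mul, e1]
      have b1 : ‖LSeries (chiLog χ (k + 1)) s‖ ≤
          CU (k + 1) * ((q : ℝ) ^ (ε / 2) * LL q t ^ (S + (k + 2))) := by
        refine (hU' (k + 1) q hq χ hχ σ t h1 h2).trans ?_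
        refine mul_le_mul_of_nonneg_left ?_ (hCU _).le
        calc LL q t ^ (k + 1 + 1) ≤ LL q t ^ (S + (k + 2)) :=
              pow_le_pow_right₀ hl (by omega)
          _ = 1 * LL q t ^ (S + (k + 2)) := (one_mul _).symm
          _ ≤ _ := by gcongr
      have b2 : ∀ j ∈ range k,
          ‖(k.choose j : ℂ) * LSeries (vmLog χ j) s * LSeries (chiLog χ (k - j)) s‖ ≤
          ((k.choose j : ℝ) * (C' j * CU (k - j))) *
            ((q : ℝ) ^ (ε / 2) * LL q t ^ (S + (k + 2))) := by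
        intro j hj
        have hjk := Finset.mem_range.1 hj
        have v1 := hI j hjk q hq χ hχ σ t h1 h2
        have v2 := hU' (k - j) q hq χ hχ σ t h1 h2
        have hE : E' j + (k - j + 1) ≤ S :=
          Finset.single_le_sum (f := fun j => E' j + (k - j + 1)) (fun _ _ => Nat.zero_le _) hj
        rw [norm_mul, norm_mul, Complex.norm_natCast]
        have p1 := hC' j
        have p2 := hCU (k - j)
        calc (k.choose j : ℝ) * ‖LSeries (vmLog χ j) s‖ * ‖LSeries (chiLog χ (k - j)) s‖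
            ≤ (k.choose j : ℝ) * (C' j * (q : ℝ) ^ (ε / 2) * LL q t ^ E' j) *
              (CU (k - j) * LL q t ^ (k - j + 1)) := by
              gcongr
          _ = ((k.choose j : ℝ) * (C' j * CU (k - j))) *
              ((q : ℝ) ^ (ε / 2) * LL q t ^ (E' j + (k - j + 1))) := by
              rw [pow_add]; ring
          _ ≤ _ := by
              refine mul_le_mul_of_nonneg_left ?_ (by positivity)
              refine mul_le_mul_of_nonneg_left ?_ hQ0.le
              exact pow_le_pow_right₀ hl (by omega)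
      calc ‖LSeries (chiLog χ (k + 1)) s - ∑ j ∈ range k,
            (k.choose j : ℂ) * LSeries (vmLog χ j) s * LSeries (chiLog χ (k - j)) s‖
          ≤ ‖LSeries (chiLog χ (k + 1)) s‖ + ‖∑ j ∈ range k,
            (k.choose j : ℂ) * LSeries (vmLog χ j) s * LSeries (chiLog χ (k - j)) s‖ :=
            norm_sub_le _ _
        _ ≤ CU (k + 1) * ((q : ℝ) ^ (ε / 2) * LL q t ^ (S + (k + 2))) +
            ∑ j ∈ range k, ((k.choose j : ℝ) * (C' j * CU (k - j))) *
            ((q : ℝ) ^ (ε / 2) * LL q t ^ (S + (k + 2))) :=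
            add_le_add b1 ((norm_sum_le _ _).trans (Finset.sum_le_sum b2))
        _ = D * (q : ℝ) ^ (ε / 2) * LL q t ^ (S + (k + 2)) := by
            rw [← Finset.sum_mul, ← add_mul, ← hD]; ring
    have hlo' := hlo q hq χ hχ σ t h1 h2
    have hq2 : (q : ℝ) ^ ε = (q : ℝ) ^ (ε / 2) * (q : ℝ) ^ (ε / 2) := by
      rw [← Real.rpow_add (by linarith)]; congr 1; ring
    have hV := norm_nonneg (LSeries (vmLog χ k) s)
    have fin : c * ‖LSeries (vmLog χ k) s‖ ≤
        D * ((q : ℝ) ^ (ε / 2) * (q : ℝ) ^ (ε / 2)) * LL q t ^ (S + (k + 2) + 12) := by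
      calc c * ‖LSeries (vmLog χ k) s‖
          ≤ ((q : ℝ) ^ (ε / 2) * LL q t ^ 12 *
            ‖LSeries (fun n : ℕ => χ (n : ZMod q)) s‖) * ‖LSeries (vmLog χ k) s‖ :=
            mul_le_mul_of_nonneg_right hlo' hV
        _ = ((q : ℝ) ^ (ε / 2) * LL q t ^ 12) * (‖LSeries (vmLog χ k) s‖ *
            ‖LSeries (fun n : ℕ => χ (n : ZMod q)) s‖) := by ring
        _ ≤ ((q : ℝ) ^ (ε / 2) * LL q t ^ 12) *
            (D * (q : ℝ) ^ (ε / 2) * LL q t ^ (S + (k + 2))) := by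
            gcongr
        _ = _ := by rw [pow_add _ (S + (k + 2)) 12]; ring
    rw [hq2, div_mul_eq_mul_div, div_mul_eq_mul_div, le_div_iff₀ hc]
    linarith [fin]

end Pool.Agent.Lib.MP_6bc78b_nt.SW.H64
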